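import Pool.Agent.GRA.StmtsC

/-!
# Squad GRA, row CGR: the Gram matrix of the vectors `u_{ij}`
-/

set_option autoImplicit false

open MeasureTheory Matrix Finset
open scoped ComplexConjugate

namespace Pool.Agent.GRA.H27

open Pool.Agent.Helper64_FR Pool.Agent.GRA

variable {n : ℕ} {E : Type} [NormedAddCommGroup E] [InnerProductSpace ℂ E]

theorem inner_s (S : Sys n E) (σ : Equiv.Perm (Fin n)) (x y : E) :
    (inner ℂ (S.s σ x) (S.s σ y) : ℂ) = inner ℂ x y := by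
  let L : E →ₗᵢ[ℂ] E := ⟨S.s σ, S.iso σ⟩
  exact L.inner_map_map x y

theorem s_u (S : Sys n E) {f₀ : E} (hf : S.Inv f₀) (σ : Equiv.Perm (Fin n)) (i j : Fin n) :
    S.s σ (S.u f₀ i j) = S.u f₀ (σ i) (σ j) := by
  unfold Sys.u
  by_cases h : i = j
  · rw [if_pos h, if_pos (by rw [h]), map_zero]
  · have h' : σ i ≠ σ j := fun e => h (σ.injective e)
    rw [if_neg h, if_neg h', map_sub, S.eqv, hf σ]

theorem u_comm (S : Sys n E) (f₀ : E) (i j : Fin n) : S.u f₀ i j = S.u f₀ j i := by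
  unfold Sys.u
  by_cases h : i = j
  · rw [if_pos h, if_pos h.symm]
  · rw [if_neg h, if_neg (fun e => h e.symm), S.comm]

theorem u_diag (S : Sys n E) (f₀ : E) (i : Fin n) : S.u f₀ i i = 0 := by
  unfold Sys.u
  rw [if_pos rfl]

theorem u_self_inner (S : Sys n E) (f₀ : E) (i j : Fin n) :
    (inner ℂ (S.u f₀ i j) f₀ : ℂ) = inner ℂ (S.u f₀ i j) (S.u f₀ i j) := by
  unfold Sys.u
  by_cases h : i = j
  · rw [if_pos h, inner_zero_left, inner_zero_left]
  · rw [if_neg h]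
    have e : (inner ℂ (f₀ - S.P i j f₀) (S.P i j f₀) : ℂ) = 0 := by
      rw [← S.symm, map_sub, S.idem, sub_self, inner_zero_left]
    rw [inner_sub_right (f₀ - S.P i j f₀) f₀ (S.P i j f₀), e, sub_zero]

theorem exists_perm {m : ℕ} (x y : Fin m ↪ Fin n) :
    ∃ σ : Equiv.Perm (Fin n), ∀ a, σ (x a) = y a := by
  obtain ⟨g, hg⟩ := (Equiv.Perm.isMultiplyPretransitive (Fin n) m).exists_smul_eq x y
  exact ⟨g, fun a => by rw [← hg]; rfl⟩


theorem perm2 {a b i j : Fin n} (h : a ≠ b) (h' : i ≠ j) :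
    ∃ σ : Equiv.Perm (Fin n), σ a = i ∧ σ b = j := by
  obtain ⟨σ, hσ⟩ := exists_perm (m := 2)
    ⟨![a, b], by intro x y e; fin_cases x <;> fin_cases y <;> simp_all⟩
    ⟨![i, j], by intro x y e; fin_cases x <;> fin_cases y <;> simp_all⟩
  exact ⟨σ, hσ 0, hσ 1⟩

theorem perm3 {a b c i j k : Fin n} (h1 : a ≠ b) (h2 : a ≠ c) (h3 : b ≠ c) (h1' : i ≠ j)
    (h2' : i ≠ k) (h3' : j ≠ k) :
    ∃ σ : Equiv.Perm (Fin n), σ a = i ∧ σ b = j ∧ σ c = k := by
  have h1s := h1.symm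
  have h2s := h2.symm
  have h3s := h3.symm
  have h1t := h1'.symm
  have h2t := h2'.symm
  have h3t := h3'.symm
  obtain ⟨σ, hσ⟩ := exists_perm (m := 3)
    ⟨![a, b, c], by intro x y e; fin_cases x <;> fin_cases y <;> simp_all⟩
    ⟨![i, j, k], by intro x y e; fin_cases x <;> fin_cases y <;> simp_all⟩
  exact ⟨σ, hσ 0, hσ 1, hσ 2⟩

theorem perm4 {a b c d i j k l : Fin n} (h1 : a ≠ b) (h2 : a ≠ c) (h3 : a ≠ d) (h4 : b ≠ c)
    (h5 : b ≠ d) (h6 : c ≠ d) (k1 : i ≠ j) (k2 : i ≠ k) (k3 : i ≠ l) (k4 : j ≠ k)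
    (k5 : j ≠ l) (k6 : k ≠ l) :
    ∃ σ : Equiv.Perm (Fin n), σ a = i ∧ σ b = j ∧ σ c = k ∧ σ d = l := by
  have h1s := h1.symm
  have h2s := h2.symm
  have h3s := h3.symm
  have h4s := h4.symm
  have h5s := h5.symm
  have h6s := h6.symm
  have k1s := k1.symm
  have k2s := k2.symm
  have k3s := k3.symm
  have k4s := k4.symm
  have k5s := k5.symm
  have k6s := k6.symm
  obtain ⟨σ, hσ⟩ := exists_perm (m := 4)
    ⟨![a, b, c, d], by intro x y e; fin_cases x <;> fin_cases y <;> simp_all⟩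
    ⟨![i, j, k, l], by intro x y e; fin_cases x <;> fin_cases y <;> simp_all⟩
  exact ⟨σ, hσ 0, hσ 1, hσ 2, hσ 3⟩

theorem real_of_symm (x y : E) (h : (inner ℂ y x : ℂ) = inner ℂ x y) :
    (inner ℂ x y : ℂ) = (((inner ℂ x y : ℂ).re : ℝ) : ℂ) := by
  have h1 : (starRingEnd ℂ) (inner ℂ x y : ℂ) = inner ℂ x y := by
    rw [inner_conj_symm, h]
  exact (Complex.conj_eq_iff_re.1 h1).symm

/-- the three kinds of inner products -/
structure Vals (S : Sys n E) (f₀ : E) (Q α β : ℝ) : Prop where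
  q : ∀ i j, i ≠ j → (inner ℂ (S.u f₀ i j) (S.u f₀ i j) : ℂ) = (Q : ℂ)
  a : ∀ i j k, i ≠ j → i ≠ k → j ≠ k → (inner ℂ (S.u f₀ i j) (S.u f₀ i k) : ℂ) = (α : ℂ)
  b : ∀ i j k l, i ≠ j → i ≠ k → i ≠ l → j ≠ k → j ≠ l → k ≠ l →
    (inner ℂ (S.u f₀ i j) (S.u f₀ k l) : ℂ) = (β : ℂ)

theorem vals (hn : 4 ≤ n) (S : Sys n E) {f₀ : E} (hf : S.Inv f₀) :
    ∃ Q α β : ℝ, Vals S f₀ Q α β := by
  obtain ⟨a, b, c, d, h1, h2, h3, h4, h5, h6⟩ : ∃ a b c d : Fin n,
      a ≠ b ∧ a ≠ c ∧ a ≠ d ∧ b ≠ c ∧ b ≠ d ∧ c ≠ d := by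
    refine ⟨⟨0, by omega⟩, ⟨1, by omega⟩, ⟨2, by omega⟩, ⟨3, by omega⟩, ?_⟩
    simp
  have tr : ∀ (σ : Equiv.Perm (Fin n)) i j k l, (inner ℂ (S.u f₀ i j) (S.u f₀ k l) : ℂ) =
      inner ℂ (S.u f₀ (σ i) (σ j)) (S.u f₀ (σ k) (σ l)) := by
    intro σ i j k l
    rw [← s_u S hf, ← s_u S hf, inner_s]
  have eq1 : ∀ i j, i ≠ j → (inner ℂ (S.u f₀ i j) (S.u f₀ i j) : ℂ) =
      inner ℂ (S.u f₀ a b) (S.u f₀ a b) := by
    intro i j hij
    obtain ⟨σ, s1, s2⟩ := perm2 hij h1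
    rw [tr σ, s1, s2]
  have eq2 : ∀ i j k, i ≠ j → i ≠ k → j ≠ k → (inner ℂ (S.u f₀ i j) (S.u f₀ i k) : ℂ) =
      inner ℂ (S.u f₀ a b) (S.u f₀ a c) := by
    intro i j k k1 k2 k3
    obtain ⟨σ, s1, s2, s3⟩ := perm3 k1 k2 k3 h1 h2 h4
    rw [tr σ, s1, s2, s3]
  have eq3 : ∀ i j k l, i ≠ j → i ≠ k → i ≠ l → j ≠ k → j ≠ l → k ≠ l →
      (inner ℂ (S.u f₀ i j) (S.u f₀ k l) : ℂ) = inner ℂ (S.u f₀ a b) (S.u f₀ c d) := by
    intro i j k l k1 k2 k3 k4 k5 k6
    obtain ⟨σ, s1, s2, s3, s4⟩ := perm4 k1 k2 k3 k4 k5 k6 h1 h2 h3 h4 h5 h6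
    rw [tr σ, s1, s2, s3, s4]
  refine ⟨(inner ℂ (S.u f₀ a b) (S.u f₀ a b) : ℂ).re, (inner ℂ (S.u f₀ a b) (S.u f₀ a c) : ℂ).re,
    (inner ℂ (S.u f₀ a b) (S.u f₀ c d) : ℂ).re, ?_, ?_, ?_⟩
  · intro i j hij
    rw [eq1 i j hij]
    exact real_of_symm _ _ rfl
  · intro i j k k1 k2 k3
    rw [eq2 i j k k1 k2 k3]
    exact real_of_symm _ _ (eq2 a c b h2 h1 h4.symm)
  · intro i j k l k1 k2 k3 k4 k5 k6
    rw [eq3 i j k l k1 k2 k3 k4 k5 k6]
    exact real_of_symm _ _ (eq3 c d a b h6 h2.symm h4.symm h3.symm h5.symm h1)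


/-- sum over `j` of the inner products with `u_{kl}` -/
theorem rowsum {S : Sys n E} {f₀ : E} {Q α β : ℝ} (v : Vals S f₀ Q α β) (i k l : Fin n)
    (hkl : k ≠ l) : ∑ j, (inner ℂ (S.u f₀ i j) (S.u f₀ k l) : ℂ) =
      ((if i = k ∨ i = l then Q + ((n : ℝ) - 2) * α else 2 * α + ((n : ℝ) - 3) * β : ℝ) : ℂ) := by
  by_cases h1 : i = k
  · subst h1
    rw [if_pos (Or.inl rfl)]
    have e : ∀ j, (inner ℂ (S.u f₀ i j) (S.u f₀ i l) : ℂ) =
        (α : ℂ) + (if j = l then ((Q : ℂ) - α) else 0) - (if j = i then (α : ℂ) else 0) := by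
      intro j
      by_cases a1 : j = l
      · subst a1
        rw [v.q i j hkl, if_pos rfl, if_neg (fun e => hkl e.symm)]
        ring
      · rw [if_neg a1]
        by_cases a2 : j = i
        · subst a2
          rw [u_diag, inner_zero_left, if_pos rfl]
          ring
        · rw [if_neg a2, v.a i j l (fun e => a2 e.symm) hkl a1]
          ring
    rw [Finset.sum_congr rfl (fun j _ => e j), Finset.sum_sub_distrib, Finset.sum_add_distrib,
      Finset.sum_ite_eq', Finset.sum_ite_eq', if_pos (Finset.mem_univ _),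
      if_pos (Finset.mem_univ _), Finset.sum_const, Finset.card_univ, Fintype.card_fin,
      nsmul_eq_mul]
    push_cast
    ring
  by_cases h2 : i = l
  · subst h2
    rw [if_pos (Or.inr rfl)]
    have e : ∀ j, (inner ℂ (S.u f₀ i j) (S.u f₀ k i) : ℂ) =
        (α : ℂ) + (if j = k then ((Q : ℂ) - α) else 0) - (if j = i then (α : ℂ) else 0) := by
      intro j
      rw [u_comm S f₀ k i]
      by_cases a1 : j = k
      · subst a1
        rw [v.q i j h1, if_pos rfl, if_neg hkl]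
        ring
      · rw [if_neg a1]
        by_cases a2 : j = i
        · subst a2
          rw [u_diag, inner_zero_left, if_pos rfl]
          ring
        · rw [if_neg a2, v.a i j k (fun e => a2 e.symm) h1 a1]
          ring
    rw [Finset.sum_congr rfl (fun j _ => e j), Finset.sum_sub_distrib, Finset.sum_add_distrib,
      Finset.sum_ite_eq', Finset.sum_ite_eq', if_pos (Finset.mem_univ _),
      if_pos (Finset.mem_univ _), Finset.sum_const, Finset.card_univ, Fintype.card_fin,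
      nsmul_eq_mul]
    push_cast
    ring
  · rw [if_neg (by tauto)]
    have e : ∀ j, (inner ℂ (S.u f₀ i j) (S.u f₀ k l) : ℂ) =
        (β : ℂ) + (if j = k then ((α : ℂ) - β) else 0) + (if j = l then ((α : ℂ) - β) else 0) -
          (if j = i then (β : ℂ) else 0) := by
      intro j
      by_cases a1 : j = k
      · subst a1
        rw [if_pos rfl, if_neg hkl, if_neg (fun e => h1 e.symm), u_comm S f₀ i j,
          v.a j i l (fun e => h1 e.symm) hkl h2]
        ring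
      · rw [if_neg a1]
        by_cases a3 : j = l
        · subst a3
          rw [if_pos rfl, if_neg (fun e => h2 e.symm), u_comm S f₀ i j, u_comm S f₀ k j,
            v.a j i k (fun e => h2 e.symm) (fun e => hkl e.symm) h1]
          ring
        · rw [if_neg a3]
          by_cases a2 : j = i
          · subst a2
            rw [u_diag, inner_zero_left, if_pos rfl]
            ring
          · rw [if_neg a2, v.b i j k l (fun e => a2 e.symm) h1 h2 a1 a3 hkl]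
            ring
    rw [Finset.sum_congr rfl (fun j _ => e j), Finset.sum_sub_distrib, Finset.sum_add_distrib,
      Finset.sum_add_distrib,
      Finset.sum_ite_eq', Finset.sum_ite_eq', Finset.sum_ite_eq', if_pos (Finset.mem_univ _),
      if_pos (Finset.mem_univ _), if_pos (Finset.mem_univ _), Finset.sum_const,
      Finset.card_univ, Fintype.card_fin, nsmul_eq_mul]
    push_cast
    ring

/-- the row vectors -/
noncomputable def A (S : Sys n E) (f₀ : E) (i : Fin n) : E := ∑ j, S.u f₀ i j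

theorem inner_A_u {S : Sys n E} {f₀ : E} {Q α β : ℝ} (v : Vals S f₀ Q α β) (i k l : Fin n)
    (hkl : k ≠ l) : (inner ℂ (A S f₀ i) (S.u f₀ k l) : ℂ) =
      ((if i = k ∨ i = l then Q + ((n : ℝ) - 2) * α else 2 * α + ((n : ℝ) - 3) * β : ℝ) : ℂ) := by
  rw [A, sum_inner, rowsum v i k l hkl]

theorem inner_A_same {S : Sys n E} {f₀ : E} {Q α β : ℝ} (v : Vals S f₀ Q α β) (i : Fin n) :
    (inner ℂ (A S f₀ i) (A S f₀ i) : ℂ) =
      ((((n : ℝ) - 1) * (Q + ((n : ℝ) - 2) * α) : ℝ) : ℂ) := by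
  have e : ∀ l, (inner ℂ (A S f₀ i) (S.u f₀ i l) : ℂ) =
      (((Q + ((n : ℝ) - 2) * α : ℝ)) : ℂ) -
        (if l = i then (((Q + ((n : ℝ) - 2) * α : ℝ)) : ℂ) else 0) := by
    intro l
    by_cases h : l = i
    · subst h
      rw [u_diag, inner_zero_right, if_pos rfl, sub_self]
    · rw [inner_A_u v i i l (fun e => h e.symm), if_pos (Or.inl rfl), if_neg h, sub_zero]
  have e2 : (inner ℂ (A S f₀ i) (A S f₀ i) : ℂ) = ∑ l, (inner ℂ (A S f₀ i) (S.u f₀ i l) : ℂ) := by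
    rw [← inner_sum]
    rfl
  rw [e2, Finset.sum_congr rfl (fun l _ => e l), Finset.sum_sub_distrib, Finset.sum_ite_eq',
    if_pos (Finset.mem_univ _), Finset.sum_const, Finset.card_univ, Fintype.card_fin,
    nsmul_eq_mul]
  push_cast
  ring

theorem inner_A_ne {S : Sys n E} {f₀ : E} {Q α β : ℝ} (v : Vals S f₀ Q α β) (i k : Fin n)
    (hik : i ≠ k) : (inner ℂ (A S f₀ i) (A S f₀ k) : ℂ) =
      ((Q + ((n : ℝ) - 2) * α + ((n : ℝ) - 2) * (2 * α + ((n : ℝ) - 3) * β) : ℝ) : ℂ) := by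
  have e : ∀ l, (inner ℂ (A S f₀ i) (S.u f₀ k l) : ℂ) =
      (((2 * α + ((n : ℝ) - 3) * β : ℝ)) : ℂ) +
        (if l = i then (((Q + ((n : ℝ) - 2) * α - (2 * α + ((n : ℝ) - 3) * β) : ℝ)) : ℂ) else 0) -
        (if l = k then (((2 * α + ((n : ℝ) - 3) * β : ℝ)) : ℂ) else 0) := by
    intro l
    by_cases h : l = k
    · subst h
      rw [u_diag, inner_zero_right, if_pos rfl, if_neg (fun e => hik e.symm)]
      ring
    · rw [inner_A_u v i k l (fun e => h e.symm), if_neg h]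
      by_cases h2 : l = i
      · subst h2
        rw [if_pos (Or.inr rfl), if_pos rfl]
        push_cast
        ring
      · rw [if_neg (by rintro (e | e); exacts [hik e, h2 e.symm]), if_neg h2]
        ring
  have e2 : (inner ℂ (A S f₀ i) (A S f₀ k) : ℂ) = ∑ l, (inner ℂ (A S f₀ i) (S.u f₀ k l) : ℂ) := by
    rw [← inner_sum]
    rfl
  rw [e2, Finset.sum_congr rfl (fun l _ => e l), Finset.sum_sub_distrib, Finset.sum_add_distrib,
    Finset.sum_ite_eq', Finset.sum_ite_eq', if_pos (Finset.mem_univ _),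
    if_pos (Finset.mem_univ _), Finset.sum_const, Finset.card_univ, Fintype.card_fin,
    nsmul_eq_mul]
  push_cast
  ring


theorem nsq (w : E) (r : ℝ) (h : (inner ℂ w w : ℂ) = (r : ℂ)) : ‖w‖ ^ 2 = r := by
  have h1 := congrArg Complex.re h
  rw [Complex.ofReal_re] at h1
  rw [← h1]
  exact (inner_self_eq_norm_sq (𝕜 := ℂ) w).symm

theorem inner_u_f {S : Sys n E} {f₀ : E} {Q α β : ℝ} (v : Vals S f₀ Q α β) (i j : Fin n)
    (h : i ≠ j) : (inner ℂ (S.u f₀ i j) f₀ : ℂ) = (Q : ℂ) := by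
  rw [u_self_inner, v.q i j h]

theorem gram_case {S : Sys n E} {f₀ : E} {Q α β : ℝ} (v : Vals S f₀ Q α β) (i j k l : Fin n)
    (hij : i ≠ j) (hkl : k ≠ l) : (inner ℂ (S.u f₀ i j) (S.u f₀ k l) : ℂ) =
    (((Q - 2 * α + β) * (if (i = k ∧ j = l) ∨ (i = l ∧ j = k) then 1 else 0) +
      (α - β) * ((if i = k then 1 else 0) + (if i = l then 1 else 0) + (if j = k then 1 else 0) +
        (if j = l then 1 else 0)) + β : ℝ) : ℂ) := by
  by_cases h1 : i = k
  · subst h1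
    have h2 : i ≠ l := hkl
    have h3 : j ≠ i := fun e => hij e.symm
    by_cases h4 : j = l
    · subst h4
      rw [v.q i j hij, if_pos (Or.inl ⟨rfl, rfl⟩), if_pos rfl, if_neg h2, if_neg h3, if_pos rfl]
      push_cast
      ring
    · rw [v.a i j l hij h2 h4, if_neg (by rintro (e | e); exacts [h4 e.2, h2 e.1]), if_pos rfl,
        if_neg h2, if_neg h3, if_neg h4]
      push_cast
      ring
  by_cases h2 : i = l
  · subst h2
    have h3 : j ≠ i := fun e => hij e.symm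
    rw [u_comm S f₀ k i]
    by_cases h4 : j = k
    · subst h4
      rw [v.q i j hij, if_pos (Or.inr ⟨rfl, rfl⟩), if_neg h1, if_pos rfl, if_pos rfl, if_neg h3]
      push_cast
      ring
    · rw [v.a i j k hij h1 h4, if_neg (by rintro (e | e); exacts [h1 e.1, h4 e.2]), if_neg h1,
        if_pos rfl, if_neg h4, if_neg h3]
      push_cast
      ring
  by_cases h3 : j = k
  · subst h3
    rw [u_comm S f₀ i j, v.a j i l (fun e => hij e.symm) hkl h2]
    rw [if_neg (by rintro (e | e); exacts [h1 e.1, h2 e.1]), if_neg h1, if_neg h2, if_pos rfl,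
      if_neg hkl]
    push_cast
    ring
  by_cases h4 : j = l
  · subst h4
    rw [u_comm S f₀ i j, u_comm S f₀ k j, v.a j i k (fun e => hij e.symm)
      (fun e => hkl e.symm) h1]
    rw [if_neg (by rintro (e | e); exacts [h1 e.1, h2 e.1]), if_neg h1, if_neg h2, if_neg h3,
      if_pos rfl]
    push_cast
    ring
  · rw [v.b i j k l hij h1 h2 h3 h4 hkl,
      if_neg (by rintro (e | e); exacts [h1 e.1, h2 e.1]), if_neg h1, if_neg h2, if_neg h3,
      if_neg h4]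
    push_cast
    ring

theorem cgr : CGRStmt := by
  intro n hn E _ _ S f₀ hf
  obtain ⟨Q, α, β, v⟩ := vals hn S hf
  have hn' : (4 : ℝ) ≤ n := by exact_mod_cast hn
  obtain ⟨a, b, c, d, h1, h2, h3, h4, h5, h6⟩ : ∃ a b c d : Fin n,
      a ≠ b ∧ a ≠ c ∧ a ≠ d ∧ b ≠ c ∧ b ≠ d ∧ c ≠ d := by
    refine ⟨⟨0, by omega⟩, ⟨1, by omega⟩, ⟨2, by omega⟩, ⟨3, by omega⟩, ?_⟩
    simp
  refine ⟨Q, Q - 2 * α + β + ((n : ℝ) - 2) * (α - β), Q - 2 * α + β, α - β, β, ?_, ?_, ?_, rfl,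
    ?_, ?_, ?_⟩
  · intro i j hij
    exact inner_u_f v i j hij
  · intro i j k l hij hkl
    exact gram_case v i j k l hij hkl
  · ring
  · have e : (inner ℂ (A S f₀ a - A S f₀ b) (A S f₀ a - A S f₀ b) : ℂ) =
        ((2 * ((n : ℝ) - 2) * (Q - 2 * α + β + ((n : ℝ) - 2) * (α - β)) : ℝ) : ℂ) := by
      rw [inner_sub_left, inner_sub_right, inner_sub_right, inner_A_same v a, inner_A_same v b,
        inner_A_ne v a b h1, inner_A_ne v b a h1.symm]
      push_cast
      ring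
    have e1 := nsq _ _ e
    have e2 : 0 ≤ 2 * ((n : ℝ) - 2) * (Q - 2 * α + β + ((n : ℝ) - 2) * (α - β)) := by
      rw [← e1]
      positivity
    by_contra hc
    push Not at hc
    nlinarith
  · have e : (inner ℂ (S.u f₀ a b + S.u f₀ c d - S.u f₀ a c - S.u f₀ b d)
        (S.u f₀ a b + S.u f₀ c d - S.u f₀ a c - S.u f₀ b d) : ℂ) =
        ((4 * (Q - 2 * α + β) : ℝ) : ℂ) := by
      simp only [inner_sub_left, inner_sub_right, inner_add_left, inner_add_right]
      rw [v.q a b h1, v.q c d h6, v.q a c h2, v.q b d h5,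
        v.b a b c d h1 h2 h3 h4 h5 h6, v.a a b c h1 h2 h4,
        v.b c d a b h6 h2.symm h4.symm h3.symm h5.symm h1,
        v.a a c b h2 h1 h4.symm, v.b a c b d h2 h1 h3 h4.symm h6 h5,
        v.b b d a c h5 h1.symm h4 h3.symm h6.symm h2]
      rw [show (inner ℂ (S.u f₀ a b) (S.u f₀ b d) : ℂ) = α by
          rw [u_comm S f₀ a b]; exact v.a b a d h1.symm h5 h3,
        show (inner ℂ (S.u f₀ b d) (S.u f₀ a b) : ℂ) = α by
          rw [u_comm S f₀ a b]; exact v.a b d a h5 h1.symm h3.symm,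
        show (inner ℂ (S.u f₀ c d) (S.u f₀ a c) : ℂ) = α by
          rw [u_comm S f₀ a c]; exact v.a c d a h6 h2.symm h3.symm,
        show (inner ℂ (S.u f₀ a c) (S.u f₀ c d) : ℂ) = α by
          rw [u_comm S f₀ a c]; exact v.a c a d h2.symm h6 h3,
        show (inner ℂ (S.u f₀ c d) (S.u f₀ b d) : ℂ) = α by
          rw [u_comm S f₀ c d, u_comm S f₀ b d]; exact v.a d c b h6.symm h5.symm h4.symm,
        show (inner ℂ (S.u f₀ b d) (S.u f₀ c d) : ℂ) = α by
          rw [u_comm S f₀ c d, u_comm S f₀ b d]; exact v.a d b c h5.symm h6.symm h4]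
      push_cast
      ring
    have e1 := nsq _ _ e
    have e2 : 0 ≤ 4 * (Q - 2 * α + β) := by
      rw [← e1]
      positivity
    linarith
  · have ef : (inner ℂ (∑ i, A S f₀ i) f₀ : ℂ) = (((n : ℝ) * ((n : ℝ) - 1) * Q : ℝ) : ℂ) := by
      have e0 : ∀ i, (inner ℂ (A S f₀ i) f₀ : ℂ) = ((((n : ℝ) - 1) * Q : ℝ) : ℂ) := by
        intro i
        have e : ∀ j, (inner ℂ (S.u f₀ i j) f₀ : ℂ) =
            (Q : ℂ) - (if j = i then (Q : ℂ) else 0) := by
          intro j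
          by_cases h : j = i
          · subst h
            rw [u_diag, inner_zero_left, if_pos rfl, sub_self]
          · rw [inner_u_f v i j (fun e => h e.symm), if_neg h, sub_zero]
        rw [A, sum_inner, Finset.sum_congr rfl (fun j _ => e j), Finset.sum_sub_distrib,
          Finset.sum_ite_eq', if_pos (Finset.mem_univ _), Finset.sum_const, Finset.card_univ,
          Fintype.card_fin, nsmul_eq_mul]
        push_cast
        ring
      rw [sum_inner, Finset.sum_congr rfl (fun i _ => e0 i), Finset.sum_const, Finset.card_univ,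
        Fintype.card_fin, nsmul_eq_mul]
      push_cast
      ring
    have ee : (inner ℂ (∑ i, A S f₀ i) (∑ i, A S f₀ i) : ℂ) = (((n : ℝ) * ((n : ℝ) - 1) *
        (2 * (Q - 2 * α + β + 2 * ((n : ℝ) - 1) * (α - β) + (n : ℝ) * ((n : ℝ) - 1) / 2 * β)) :
          ℝ) : ℂ) := by
      have e0 : ∀ i, (inner ℂ (A S f₀ i) (∑ k, A S f₀ k) : ℂ) = (((((n : ℝ) - 1) *
          (2 * (Q - 2 * α + β + 2 * ((n : ℝ) - 1) * (α - β) +
            (n : ℝ) * ((n : ℝ) - 1) / 2 * β))) : ℝ) : ℂ) := by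
        intro i
        have e : ∀ k, (inner ℂ (A S f₀ i) (A S f₀ k) : ℂ) =
            ((Q + ((n : ℝ) - 2) * α + ((n : ℝ) - 2) * (2 * α + ((n : ℝ) - 3) * β) : ℝ) : ℂ) +
            (if k = i then (((((n : ℝ) - 1) * (Q + ((n : ℝ) - 2) * α)) - (Q + ((n : ℝ) - 2) * α +
              ((n : ℝ) - 2) * (2 * α + ((n : ℝ) - 3) * β)) : ℝ) : ℂ) else 0) := by
          intro k
          by_cases h : k = i
          · subst h
            rw [inner_A_same v, if_pos rfl]
            push_cast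
            ring
          · rw [inner_A_ne v i k (fun e => h e.symm), if_neg h, add_zero]
        rw [inner_sum, Finset.sum_congr rfl (fun j _ => e j), Finset.sum_add_distrib,
          Finset.sum_ite_eq', if_pos (Finset.mem_univ _), Finset.sum_const, Finset.card_univ,
          Fintype.card_fin, nsmul_eq_mul]
        push_cast
        ring
      rw [sum_inner, Finset.sum_congr rfl (fun i _ => e0 i), Finset.sum_const, Finset.card_univ,
        Fintype.card_fin, nsmul_eq_mul]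
      push_cast
      ring
    have e1 := nsq _ _ ee
    have e2 := norm_inner_le_norm (𝕜 := ℂ) (∑ i, A S f₀ i) f₀
    rw [ef, Complex.norm_real, Real.norm_eq_abs] at e2
    have e3 : ((n : ℝ) * ((n : ℝ) - 1) * Q) ^ 2 ≤
        (‖∑ i, A S f₀ i‖ * ‖f₀‖) ^ 2 := by
      rw [← sq_abs ((n : ℝ) * ((n : ℝ) - 1) * Q)]
      exact pow_le_pow_left₀ (abs_nonneg _) e2 2
    rw [mul_pow (‖∑ i, A S f₀ i‖), e1] at e3
    have hm : 0 < (n : ℝ) * ((n : ℝ) - 1) := by nlinarith
    have e4 : (n : ℝ) * ((n : ℝ) - 1) * ((n : ℝ) * ((n : ℝ) - 1) * Q ^ 2) ≤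
        (n : ℝ) * ((n : ℝ) - 1) * (2 * (Q - 2 * α + β + 2 * ((n : ℝ) - 1) * (α - β) +
          (n : ℝ) * ((n : ℝ) - 1) / 2 * β) * ‖f₀‖ ^ 2) := by
      calc _ = ((n : ℝ) * ((n : ℝ) - 1) * Q) ^ 2 := by ring
        _ ≤ _ := e3
        _ = _ := by ring
    have e5 := le_of_mul_le_mul_left e4 hm
    linarith

end Pool.Agent.GRA.H27
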